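import Pool.Agent.H170.Reg.Main
import Mathlib.Combinatorics.Enumerative.InclusionExclusion

set_option autoImplicit false
set_option linter.unusedSectionVars false

/-! The characteristic polynomial of a totally unimodular matrix at a positive integer `q` counts
the vectors modulo `q` which are not orthogonal to any column. -/

namespace Pool.Agent.H170.Reg

open Finset Matrix
open Pool.Agent.H239R2.Cover
open Pool.Agent.Helper879.ECD (sp Ind)

variable {ι E : Type} [Fintype ι] [DecidableEq ι] [Fintype E] [DecidableEq E]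

/-- rank of a set of columns -/
noncomputable def rk (v : E → ι → ℤ) (X : Finset E) : ℕ :=
  Module.finrank ℚ (sp ℚ (fun e => qv (v e)) X)

theorem rk_le (v : E → ι → ℤ) (X : Finset E) : rk v X ≤ Fintype.card ι := by
  have := Submodule.finrank_le (sp ℚ (fun e => qv (v e)) X)
  rwa [Module.finrank_fintype_fun_eq_card] at this

theorem rk_mono (v : E → ι → ℤ) {X Y : Finset E} (h : X ⊆ Y) : rk v X ≤ rk v Y :=
  Submodule.finrank_mono (Pool.Agent.Helper879.ECD.sp_mono h)

/-- scalar product modulo `q` -/
def pr (v : E → ι → ℤ) (q : ℕ) (e : E) (y : ι → ZMod q) : ZMod q := ∑ i, (v e i : ZMod q) * y i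

theorem pr_add (v : E → ι → ℤ) (q : ℕ) (e : E) (y z : ι → ZMod q) :
    pr v q e (y + z) = pr v q e y + pr v q e z := by
  unfold pr
  rw [← Finset.sum_add_distrib]
  exact Finset.sum_congr rfl fun i _ => by rw [Pi.add_apply]; ring

open Classical in
/-- the vectors orthogonal modulo `q` to the columns in `X` -/
theorem card_orth (v : E → ι → ℤ) (hTU : TU v) (q : ℕ) [NeZero q] (X : Finset E) :
    (univ.filter (fun y : ι → ZMod q => ∀ e ∈ X, pr v q e y = 0)).card
      = q ^ (Fintype.card ι - rk v X) := by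
  obtain ⟨B, hBX, hB, hBspan⟩ := exists_base v X
  obtain ⟨w, hw⟩ := dualvec v hTU B hB
  -- reduce to the basis
  have hred : ∀ y : ι → ZMod q, (∀ e ∈ X, pr v q e y = 0) ↔ ∀ e ∈ B, pr v q e y = 0 := by
    intro y
    refine ⟨fun h e he => h e (hBX he), fun h e he => ?_⟩
    have h1 : qv (v e) ∈ sp ℚ (fun e => qv (v e)) B := by
      rw [hBspan]; exact Submodule.subset_span ⟨e, by simpa using he, rfl⟩
    obtain ⟨c, hc⟩ := int_coeff v hTU B hB e h1
    have h2 : pr v q e y = ∑ b ∈ B, (c b : ZMod q) * pr v q b y := by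
      unfold pr
      have h3 : ∀ i, (v e i : ZMod q) = ∑ b ∈ B, (c b : ZMod q) * (v b i : ZMod q) := by
        intro i
        have h4 := congrFun hc i
        simp only [Finset.sum_apply, Pi.smul_apply, smul_eq_mul] at h4
        rw [h4]; push_cast; rfl
      simp only [h3, Finset.sum_mul, Finset.mul_sum]
      rw [Finset.sum_comm]
      exact Finset.sum_congr rfl fun b _ => Finset.sum_congr rfl fun i _ => by ring
    rw [h2]
    exact Finset.sum_eq_zero fun b hb => by rw [h b hb, mul_zero]
  let Φ : (ι → ZMod q) →+ (B → ZMod q) :=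
    { toFun := fun y b => pr v q b.1 y
      map_zero' := by ext b; simp [pr]
      map_add' := fun y z => by ext b; exact pr_add v q b.1 y z }
  have hsurj : Function.Surjective Φ := by
    intro u
    refine ⟨fun i => ∑ b : B, u b * (w b.1 i : ZMod q), ?_⟩
    ext g
    change pr v q g.1 _ = u g
    unfold pr
    have h1 : ∑ i, (v g.1 i : ZMod q) * ∑ b : B, u b * (w b.1 i : ZMod q)
        = ∑ b : B, u b * ((∑ i, v g.1 i * w b.1 i : ℤ) : ZMod q) := by
      push_cast
      simp only [Finset.mul_sum]
      rw [Finset.sum_comm]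
      exact Finset.sum_congr rfl fun b _ => Finset.sum_congr rfl fun i _ => by ring
    rw [h1, Finset.sum_eq_single g]
    · rw [hw g.1 g.2 g.1 g.2, if_pos rfl]; simp
    · intro b _ hne
      rw [hw g.1 g.2 b.1 b.2, if_neg (fun h => hne (Subtype.ext h.symm))]; simp
    · intro h; exact absurd (Finset.mem_univ _) h
  have h1 := AddSubgroup.card_eq_card_quotient_mul_card_addSubgroup Φ.ker
  have h2 : Nat.card ((ι → ZMod q) ⧸ Φ.ker) = Nat.card (B → ZMod q) :=
    Nat.card_congr (QuotientAddGroup.quotientKerEquivOfSurjective Φ hsurj).toEquiv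
  rw [h2, Nat.card_fun, Nat.card_fun, Nat.card_zmod, Nat.card_eq_fintype_card,
    Nat.card_eq_fintype_card (α := B), Fintype.card_coe] at h1
  have h3 : Nat.card Φ.ker = (univ.filter (fun y : ι → ZMod q => ∀ e ∈ X, pr v q e y = 0)).card := by
    rw [Nat.card_eq_fintype_card, Fintype.card_subtype]
    congr 1
    ext y
    simp only [Finset.mem_filter, Finset.mem_univ, true_and]
    rw [hred, AddMonoidHom.mem_ker]
    constructor
    · intro h e he
      exact congrFun h ⟨e, he⟩
    · intro h
      ext e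
      exact h e.1 e.2
  have h4 : rk v X = B.card := by
    unfold rk
    rw [← hBspan]
    exact Pool.Agent.Helper879.ECD.Ind.card hB
  rw [← h3, h4]
  have h5 : B.card ≤ Fintype.card ι := by rw [← h4]; exact rk_le v X
  have hq : 0 < q := Nat.pos_of_ne_zero (NeZero.ne q)
  have h6 : q ^ Fintype.card ι = q ^ B.card * q ^ (Fintype.card ι - B.card) := by
    rw [← pow_add]; congr 1; omega
  rw [h6] at h1
  exact (Nat.eq_of_mul_eq_mul_left (pow_pos hq _) h1).symm

/-- characteristic polynomial -/
noncomputable def chi (v : E → ι → ℤ) (q : ℤ) : ℤ :=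
  ∑ X : Finset E, (-1) ^ X.card * q ^ (rk v univ - rk v X)

open Classical in
/-- counting nowhere-zero tensions -/
theorem chi_count (v : E → ι → ℤ) (hTU : TU v) (q : ℕ) [NeZero q] :
    ((univ.filter (fun y : ι → ZMod q => ∀ e, pr v q e y ≠ 0)).card : ℤ)
      = (q : ℤ) ^ (Fintype.card ι - rk v univ) * chi v q := by
  have h1 := Finset.inclusion_exclusion_card_inf_compl (univ : Finset E)
    (fun e => univ.filter (fun y : ι → ZMod q => pr v q e y = 0))
  have h2 : (univ : Finset E).inf (fun e => (univ.filter (fun y : ι → ZMod q => pr v q e y = 0))ᶜ)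
      = univ.filter (fun y : ι → ZMod q => ∀ e, pr v q e y ≠ 0) := by
    ext y
    rw [Finset.mem_inf]
    simp
  have h3 : ∀ t : Finset E, t.inf (fun e => univ.filter (fun y : ι → ZMod q => pr v q e y = 0))
      = univ.filter (fun y : ι → ZMod q => ∀ e ∈ t, pr v q e y = 0) := by
    intro t
    ext y
    rw [Finset.mem_inf]
    simp
  rw [h2] at h1
  rw [h1, Finset.powerset_univ, chi, Finset.mul_sum]
  refine Finset.sum_congr rfl fun t _ => ?_
  rw [h3, card_orth v hTU q t]
  have h4 : Fintype.card ι - rk v t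
      = (Fintype.card ι - rk v univ) + (rk v univ - rk v t) := by
    have := rk_le v univ
    have := rk_mono v (Finset.subset_univ t)
    omega
  rw [h4]
  push_cast
  rw [pow_add]
  ring

/-- **Main theorem.** -/
theorem chi_pos (v : E → ι → ℤ) (hTU : TU v) (k : ℕ) (hk : 3 ≤ k)
    (hd : ∀ Y : Finset E, 2 * Y.card ≤ k * rk v Y) : 0 < chi v k := by
  classical
  have : NeZero k := ⟨by omega⟩
  obtain ⟨y, hy⟩ := reg_mod v hTU k hk hd (fun _ => 0)
  have h1 := chi_count v hTU k
  have h2 : 0 < (univ.filter (fun y : ι → ZMod k => ∀ e, pr v k e y ≠ 0)).card := by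
    apply Finset.card_pos.mpr
    refine ⟨fun i => (y i : ZMod k), ?_⟩
    rw [Finset.mem_filter]
    refine ⟨Finset.mem_univ _, fun e h => hy e ?_⟩
    rw [sub_zero, ← ZMod.intCast_zmod_eq_zero_iff_dvd]
    rw [← h]
    unfold pr
    push_cast
    rfl
  have h3 : (0:ℤ) < (k : ℤ) ^ (Fintype.card ι - rk v univ) * chi v k := by
    rw [← h1]; exact_mod_cast h2
  have h4 : (0:ℤ) < (k : ℤ) ^ (Fintype.card ι - rk v univ) := by
    have : (0:ℤ) < k := by exact_mod_cast (by omega : 0 < k)
    positivity
  exact (mul_pos_iff_of_pos_left h4).mp h3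

end Pool.Agent.H170.Reg
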