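import Pool.Agent.H239R2.Cover.CircFlow

set_option autoImplicit false
set_option linter.unusedSectionVars false

/-! Flows modulo `k` with one forbidden value per element, for unimodular configurations with a
fractional packing of bases. -/

namespace Pool.Agent.H170.Reg

open Finset Matrix
open Pool.Agent.H239R2.Cover

variable {ι E : Type} [Fintype ι] [DecidableEq ι] [Fintype E] [DecidableEq E]

/-- The covering theorem for a configuration having `a` bases which use every element at most
`b` times. -/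
theorem cover_core (x : E → ι → ℤ) (a b : ℕ) (ha : 0 < a)
    (c : Fin a → ι → E × Fin b) (hc : Function.Injective (fun p : Fin a × ι => c p.1 p.2))
    (hdet : ∀ j, (Matrix.of (fun i => x (c j i).1)).det ≠ 0) (T : E → ℝ) :
    ∃ (g : E → ℝ) (a' : ι → ℤ), (∀ e, |g e| ≤ b / (2 * a)) ∧
      ∑ e, (T e - g e) • rv (x e) = rv a' := by
  classical
  have haR : (0:ℝ) < a := by exact_mod_cast ha
  let x' : E × Fin b → ι → ℤ := fun p => x p.1
  let t : ι → ℝ := ∑ e, T e • rv (x e)
  obtain ⟨a', τ, hτ, hsum⟩ := covering (fun _ : Fin a => 1 / (a : ℝ)) (fun _ => by positivity)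
    (by simp; field_simp) (fun j i => x' (c j i)) hdet t
  let cc : Fin a × ι → E × Fin b := fun p => c p.1 p.2
  have hcc : Function.Injective cc := hc
  let g' : E × Fin b → ℝ := Function.extend cc (fun p => τ p.1 p.2) 0
  have hgc : ∀ p, g' (cc p) = τ p.1 p.2 := fun p => hcc.extend_apply _ _ p
  have hgn : ∀ e, (¬ ∃ p, cc p = e) → g' e = 0 := fun e he => by
    simp only [g']; rw [Function.extend_apply' _ _ _ he]; rfl
  have hgb : ∀ e, |g' e| ≤ 1 / (2 * a) := by
    intro e
    by_cases he : ∃ p, cc p = e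
    · obtain ⟨p, rfl⟩ := he
      rw [hgc]
      refine (hτ p.1 p.2).trans (le_of_eq ?_)
      field_simp
    · rw [hgn e he]; simp
  have hgs' : ∑ p, g' p • rv (x' p) = t - rv a' := by
    rw [hsum, ← Finset.sum_product', Finset.univ_product_univ]
    rw [← Finset.sum_subset (Finset.subset_univ (univ.image cc)),
      Finset.sum_image (fun p _ q _ h => hcc h)]
    · exact Finset.sum_congr rfl fun p _ => by rw [hgc]
    · intro e _ he
      rw [hgn e (by
        rintro ⟨p, hp⟩
        exact he (Finset.mem_image.mpr ⟨p, Finset.mem_univ _, hp⟩)), zero_smul]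
  let g : E → ℝ := fun e => ∑ i : Fin b, g' (e, i)
  have hgs : ∑ e, g e • rv (x e) = t - rv a' := by
    rw [← hgs', ← Finset.univ_product_univ, Finset.sum_product]
    refine Finset.sum_congr rfl fun e _ => ?_
    simp only [g, x']
    rw [Finset.sum_smul]
  refine ⟨g, a', fun e => ?_, ?_⟩
  · calc |g e| ≤ ∑ i : Fin b, |g' (e, i)| := Finset.abs_sum_le_sum_abs _ _
      _ ≤ ∑ _i : Fin b, 1 / (2 * (a:ℝ)) := Finset.sum_le_sum fun i _ => hgb _
      _ = b / (2 * a) := by
        rw [Finset.sum_const, Finset.card_univ, Fintype.card_fin, nsmul_eq_mul]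
        ring
  · have h1 : ∑ e, (T e - g e) • rv (x e) = t - ∑ e, g e • rv (x e) := by
      simp only [t]
      rw [← Finset.sum_sub_distrib]
      exact Finset.sum_congr rfl fun e _ => by rw [sub_smul]
    rw [h1, hgs]
    abel

/-- Flows modulo `k` avoiding one value on every element. -/
theorem mod_flow (x : E → ι → ℤ) (hx : Unimod x) (k : ℕ) (hk : 2 ≤ k)
    (c : Fin k → ι → E × Fin (k - 2)) (hc : Function.Injective (fun p : Fin k × ι => c p.1 p.2))
    (hdet : ∀ j, (Matrix.of (fun i => x (c j i).1)).det ≠ 0) (T : E → ℤ) :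
    ∃ (f : E → ℤ) (a' : ι → ℤ), (∀ e, T e + 1 ≤ f e ∧ f e ≤ T e + k - 1) ∧
      ∑ e, f e • x e = (k : ℤ) • a' := by
  classical
  have hkR : (0:ℝ) < k := by exact_mod_cast (by omega : 0 < k)
  obtain ⟨g, a', hg, hs⟩ := cover_core x k (k - 2) (by omega) c hc hdet
    (fun e => ((T e : ℝ) + k / 2) / k)
  have hk2 : (((k - 2 : ℕ) : ℝ)) = k - 2 := by push_cast [hk]; ring
  let h : E → ℝ := fun e => k * (((T e : ℝ) + k / 2) / k - g e)
  have hh : ∀ e, (T e : ℝ) + 1 ≤ h e ∧ h e ≤ T e + k - 1 := by
    intro e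
    have h1 := abs_le.mp (hg e)
    rw [hk2] at h1
    have h2 : h e = T e + k / 2 - k * g e := by
      simp only [h]
      field_simp
    have h3 : k * (((k:ℝ) - 2) / (2 * k)) = k / 2 - 1 := by
      field_simp
    have h4 : k * g e ≤ k / 2 - 1 := by
      rw [← h3]; exact mul_le_mul_of_nonneg_left h1.2 hkR.le
    have h5 : -(k / 2 - 1) ≤ k * g e := by
      rw [← h3, ← mul_neg]; exact mul_le_mul_of_nonneg_left h1.1 hkR.le
    rw [h2]
    constructor <;> linarith
  have hks : ∑ e, h e • rv (x e) = rv ((k : ℤ) • a') := by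
    have h1 : ∑ e, h e • rv (x e)
        = (k : ℝ) • ∑ e, (((T e : ℝ) + k / 2) / k - g e) • rv (x e) := by
      rw [Finset.smul_sum]
      exact Finset.sum_congr rfl fun e _ => by rw [smul_smul]
    rw [h1, hs]
    ext i
    simp [rv]
  have hfr : ∑ e, Int.fract (h e) • rv (x e) = rv ((k : ℤ) • a' - ∑ e, ⌊h e⌋ • x e) := by
    rw [rv_sub, ← hks, rv_sum, ← Finset.sum_sub_distrib]
    refine Finset.sum_congr rfl fun e _ => ?_
    ext i
    simp only [Int.fract, rv, Pi.smul_apply, Pi.sub_apply, smul_eq_mul, Int.cast_mul]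
    ring
  obtain ⟨S, hS, hS1, -⟩ := rounding' x hx (fun e => Int.fract (h e))
    (fun e => Int.fract_nonneg _) (fun e => (Int.fract_lt_one _).le) _ hfr
  refine ⟨fun e => ⌊h e⌋ + if e ∈ S then 1 else 0, a', fun e => ?_, ?_⟩
  · have h1 : T e + 1 ≤ ⌊h e⌋ := Int.le_floor.mpr (by push_cast; exact (hh e).1)
    have h2 : ⌊h e⌋ ≤ T e + k - 1 := by
      have h3 := (Int.floor_le (h e)).trans (hh e).2
      exact_mod_cast h3
    by_cases he : e ∈ S
    · simp only [if_pos he]
      have h3 := hS1 e he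
      have h4 : (⌊h e⌋ : ℝ) < h e := by
        have h5 := Int.floor_add_fract (h e)
        have h6 : 0 < Int.fract (h e) := lt_of_le_of_ne (Int.fract_nonneg _) (Ne.symm h3)
        linarith
      have h7 : (⌊h e⌋ : ℝ) < ((T e + k - 1 : ℤ) : ℝ) := by
        push_cast
        exact lt_of_lt_of_le h4 (hh e).2
      have h8 : ⌊h e⌋ < T e + k - 1 := by exact_mod_cast h7
      constructor <;> omega
    · simp only [if_neg he]
      constructor <;> omega
  · simp only [add_smul]
    rw [Finset.sum_add_distrib]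
    have h1 : ∑ e, (if e ∈ S then (1:ℤ) else 0) • x e = ∑ e ∈ S, x e := by
      rw [← Finset.sum_filter_add_sum_filter_not univ (fun e => e ∈ S)]
      rw [Finset.sum_congr rfl (g := fun e => x e)
        (fun e he => by rw [if_pos (Finset.mem_filter.mp he).2, one_smul])]
      rw [Finset.sum_eq_zero (s := univ.filter (fun e => ¬ e ∈ S))
        (fun e he => by rw [if_neg (Finset.mem_filter.mp he).2, zero_smul]), add_zero]
      congr 1
      ext e; simp
    rw [h1, hS]
    abel

/-- Integer flows from nowhere-zero flows modulo `k`. -/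
theorem int_of_mod (x : E → ι → ℤ) (hx : Unimod x) (k : ℕ) (hk : 0 < k) (f : E → ℤ) (a' : ι → ℤ)
    (hf : ∀ e, 1 ≤ f e ∧ f e ≤ k - 1) (hs : ∑ e, f e • x e = (k : ℤ) • a') :
    ∃ F : E → ℤ, (∀ e, 1 ≤ |F e| ∧ |F e| ≤ k - 1) ∧ ∑ e, F e • x e = 0 := by
  classical
  have hkR : (0:ℝ) < k := by exact_mod_cast hk
  have h1 : ∑ e, ((f e : ℝ) / k) • rv (x e) = rv a' := by
    ext i
    have h2 := congrFun hs i
    have h3 := congrArg (Int.cast : ℤ → ℝ) h2
    simp only [Finset.sum_apply, Pi.smul_apply, smul_eq_mul, Int.cast_sum, Int.cast_mul,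
      Int.cast_natCast] at h3
    simp only [rv, Finset.sum_apply, Pi.smul_apply, smul_eq_mul]
    have h4 : ∑ e, (f e : ℝ) / k * (x e i : ℝ) = (∑ e, (f e : ℝ) * (x e i : ℝ)) / k := by
      rw [Finset.sum_div]
      exact Finset.sum_congr rfl fun e _ => by ring
    rw [h4, h3]
    field_simp
  obtain ⟨S, hS⟩ := rounding x hx a' _ (fun e => (f e : ℝ) / k)
    (fun e => by
      have : (0:ℝ) ≤ f e := by exact_mod_cast (by have := (hf e).1; omega : 0 ≤ f e)
      positivity)
    (fun e => by
      rw [div_le_one hkR]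
      exact_mod_cast (by have := (hf e).2; omega : f e ≤ k)) h1 le_rfl
  refine ⟨fun e => if e ∈ S then f e - k else f e, fun e => ?_, ?_⟩
  · have h2 := hf e
    by_cases he : e ∈ S
    · simp only [if_pos he]
      rw [abs_of_neg (by omega)]
      constructor <;> omega
    · simp only [if_neg he]
      rw [abs_of_pos (by omega)]
      exact h2
  · have h2 : ∑ e, (if e ∈ S then f e - k else f e) • x e
        = ∑ e, f e • x e - (k : ℤ) • ∑ e ∈ S, x e := by
      rw [Finset.smul_sum]
      have h3 : ∑ e ∈ S, (k : ℤ) • x e = ∑ e, (if e ∈ S then (k : ℤ) • x e else 0) := by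
        rw [← Finset.sum_filter, Finset.filter_mem_eq_inter, Finset.univ_inter]
      rw [h3, ← Finset.sum_sub_distrib]
      refine Finset.sum_congr rfl fun e _ => ?_
      by_cases he : e ∈ S
      · simp only [if_pos he]; rw [sub_smul]
      · simp only [if_neg he]; rw [sub_zero]
    rw [h2, hs, hS, sub_self]

end Pool.Agent.H170.Reg
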