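import Pool.Agent.H170.Reg.TU
import Pool.Agent.H170.Reg.Flow

set_option autoImplicit false
set_option linter.unusedSectionVars false

/-! The kernel lattice of a totally unimodular matrix as a unimodular configuration. -/

namespace Pool.Agent.H170.Reg

open Finset Matrix
open Pool.Agent.H239R2.Cover
open Pool.Agent.Helper879.ECD (sp Ind)

variable {ι E : Type} [Fintype ι] [DecidableEq ι] [Fintype E] [DecidableEq E]

/-- An integer vector as a rational vector. -/
def qv (x : ι → ℤ) : ι → ℚ := fun i => (x i : ℚ)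

/-- total unimodularity of the matrix with columns `v e` -/
def TU (v : E → ι → ℤ) : Prop :=
  (Matrix.of (fun i e => v e i) : Matrix ι E ℤ).IsTotallyUnimodular

/-- integral coordinates -/
theorem int_coeff (v : E → ι → ℤ) (hTU : TU v) (B : Finset E)
    (hB : LinearIndepOn ℚ (fun e => qv (v e)) (B : Set E)) (e : E)
    (he : qv (v e) ∈ sp ℚ (fun e => qv (v e)) B) :
    ∃ c : E → ℤ, v e = ∑ b ∈ B, c b • v b := by
  classical
  obtain ⟨w, hw⟩ := dualvec v hTU B hB
  obtain ⟨c, hc⟩ := Pool.Agent.Helper879.ECD.exists_coeff he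
  have hcb : ∀ b ∈ B, c b = ((∑ i, v e i * w b i : ℤ) : ℚ) := by
    intro b hb
    have h1 : ∀ i, (v e i : ℚ) = ∑ g ∈ B, c g * (v g i : ℚ) := by
      intro i
      have := congrFun hc i
      simp only [Finset.sum_apply, Pi.smul_apply, smul_eq_mul, qv] at this
      exact this.symm
    push_cast
    simp only [h1, Finset.sum_mul]
    rw [Finset.sum_comm]
    rw [Finset.sum_eq_single b]
    · have h2 : ∑ i, c b * (v b i : ℚ) * (w b i : ℚ) = c b * ((∑ i, v b i * w b i : ℤ) : ℚ) := by
        push_cast
        rw [Finset.mul_sum]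
        exact Finset.sum_congr rfl fun i _ => by ring
      rw [h2, hw b hb b hb, if_pos rfl]; simp
    · intro g hg hne
      have h2 : ∑ i, c g * (v g i : ℚ) * (w b i : ℚ) = c g * ((∑ i, v g i * w b i : ℤ) : ℚ) := by
        push_cast
        rw [Finset.mul_sum]
        exact Finset.sum_congr rfl fun i _ => by ring
      rw [h2, hw g hg b hb, if_neg hne]; simp
    · intro h; exact absurd hb h
  refine ⟨fun b => ∑ i, v e i * w b i, ?_⟩
  ext i
  have h1 := congrFun hc i
  simp only [Finset.sum_apply, Pi.smul_apply, smul_eq_mul, qv] at h1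
  have h2 : (v e i : ℚ) = ((∑ b ∈ B, (∑ i, v e i * w b i) • v b) i : ℤ) := by
    rw [← h1]
    simp only [Finset.sum_apply, Pi.smul_apply, smul_eq_mul]
    push_cast
    refine Finset.sum_congr rfl fun b hb => ?_
    rw [hcb b hb]
    push_cast
    ring
  exact_mod_cast h2

/-- a basis inside a set of columns -/
theorem exists_base (v : E → ι → ℤ) (A : Finset E) :
    ∃ B ⊆ A, LinearIndepOn ℚ (fun e => qv (v e)) (B : Set E) ∧
      sp ℚ (fun e => qv (v e)) B = sp ℚ (fun e => qv (v e)) A := by
  classical
  obtain ⟨b, hbA, -, hspan, hind⟩ := exists_linearIndepOn_extension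
    (K := ℚ) (v := fun e => qv (v e)) (s := ∅) (t := (A : Set E))
    (linearIndepOn_empty _ _) (Set.empty_subset _)
  have hfin : b.Finite := A.finite_toSet.subset hbA
  refine ⟨hfin.toFinset, ?_, ?_, ?_⟩
  · intro e he
    exact hbA (hfin.mem_toFinset.mp he)
  · rw [hfin.coe_toFinset]; exact hind
  · apply le_antisymm
    · unfold sp
      apply Submodule.span_mono
      apply Set.image_mono
      rw [hfin.coe_toFinset]; exact hbA
    · unfold sp
      rw [Submodule.span_le, hfin.coe_toFinset]
      exact hspan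

/-- The kernel lattice. -/
def kerLat (v : E → ι → ℤ) : Submodule ℤ (E → ℤ) := LinearMap.ker (Fintype.linearCombination ℤ v)

theorem mem_kerLat (v : E → ι → ℤ) (z : E → ℤ) : z ∈ kerLat v ↔ ∀ i, ∑ e, z e * v e i = 0 := by
  unfold kerLat
  rw [LinearMap.mem_ker, Fintype.linearCombination_apply]
  constructor
  · intro h i
    have := congrFun h i
    simpa [Finset.sum_apply] using this
  · intro h
    ext i
    simpa [Finset.sum_apply] using h i

/-- the fundamental circuit vector of `e` over `B` is in the kernel lattice -/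
theorem fund_mem (v : E → ι → ℤ) (B : Finset E) (e : E) (heB : e ∉ B) (c : E → ℤ)
    (hc : v e = ∑ b ∈ B, c b • v b) :
    (fun g => if g = e then (1:ℤ) else if g ∈ B then - c g else 0) ∈ kerLat v := by
  classical
  rw [mem_kerLat]
  intro i
  rw [← Finset.add_sum_erase univ _ (Finset.mem_univ e)]
  have h1 : ∑ g ∈ univ.erase e, (if g = e then (1:ℤ) else if g ∈ B then - c g else 0) * v g i
      = - ∑ g ∈ B, c g * v g i := by
    rw [← Finset.sum_neg_distrib]
    have h2 : B ⊆ univ.erase e := by
      intro b hb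
      rw [Finset.mem_erase]
      exact ⟨fun h => heB (h ▸ hb), Finset.mem_univ _⟩
    rw [← Finset.sum_subset h2]
    · refine Finset.sum_congr rfl fun b hb => ?_
      have hbe : b ≠ e := by rintro rfl; exact heB hb
      rw [if_neg hbe, if_pos hb]; ring
    · intro g hg hgB
      rw [if_neg (Finset.ne_of_mem_erase hg), if_neg hgB, zero_mul]
  rw [h1, if_pos rfl]
  have h3 := congrFun hc i
  simp only [Finset.sum_apply, Pi.smul_apply, smul_eq_mul] at h3
  rw [h3]; ring

section Basis

variable (v : E → ι → ℤ) {n : ℕ} (zb : Module.Basis (Fin n) ℤ (kerLat v))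

/-- the coordinates of the dual configuration -/
noncomputable def cfg (e : E) (i : Fin n) : ℤ := (zb i : E → ℤ) e

theorem cfg_orth (φ : Module.Dual ℚ (ι → ℚ)) (i : Fin n) :
    ∑ e, φ (qv (v e)) * (cfg v zb e i : ℚ) = 0 := by
  have h0 := (mem_kerLat v _).mp (zb i).2
  have h1 : ∑ e, φ (qv (v e)) * (cfg v zb e i : ℚ) = φ (∑ e, (cfg v zb e i : ℚ) • qv (v e)) := by
    rw [map_sum]
    exact Finset.sum_congr rfl fun e _ => by rw [map_smul, smul_eq_mul]; ring
  rw [h1]
  have h2 : ∑ e, (cfg v zb e i : ℚ) • qv (v e) = 0 := by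
    ext k
    have h3 := congrArg (Int.cast : ℤ → ℚ) (h0 k)
    push_cast at h3
    simp only [Finset.sum_apply, Pi.smul_apply, smul_eq_mul, Pi.zero_apply, qv, cfg]
    exact h3
  rw [h2, map_zero]

theorem cfg_unimod (hTU : TU v) : Unimod (cfg v zb) := by
  classical
  intro I hI s ⟨a, ha⟩ f hf
  have hIq := indepQ_of_indepR (cfg v zb) I hI
  -- the column of `f` is in the span of the columns outside `I`
  have hspan : qv (v f) ∈ sp ℚ (fun e => qv (v e)) Iᶜ := by
    by_contra hnot
    obtain ⟨φ, hφ, hle⟩ := Submodule.exists_le_ker_of_notMem hnot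
    apply hφ
    have h1 : ∀ e, e ∉ I → φ (qv (v e)) = 0 := by
      intro e he
      have : qv (v e) ∈ sp ℚ (fun e => qv (v e)) Iᶜ :=
        Submodule.subset_span ⟨e, by simpa using he, rfl⟩
      exact hle this
    rw [linearIndepOn_finset_iff] at hIq
    refine hIq (fun e => φ (qv (v e))) ?_ f hf
    ext i
    have h2 := cfg_orth v zb φ i
    simp only [Finset.sum_apply, Pi.smul_apply, smul_eq_mul, Pi.zero_apply]
    rw [← h2]
    exact Finset.sum_subset (Finset.subset_univ I) (fun e _ he => by rw [h1 e he, zero_mul])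
  obtain ⟨B, hBI, hB, hBspan⟩ := exists_base v Iᶜ
  rw [← hBspan] at hspan
  obtain ⟨c, hc⟩ := int_coeff v hTU B hB f hspan
  have hfB : f ∉ B := fun h => by
    have := hBI h
    rw [Finset.mem_compl] at this
    exact this hf
  have hz := fund_mem v B f hfB c hc
  set z : E → ℤ := fun g => if g = f then (1:ℤ) else if g ∈ B then - c g else 0 with hzdef
  have hrep : ∀ e, z e = ∑ i, zb.repr ⟨z, hz⟩ i * cfg v zb e i := by
    intro e
    have h1 := zb.sum_repr ⟨z, hz⟩
    have h2 := congrArg (fun u : kerLat v => (u : E → ℤ) e) h1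
    simp only [Submodule.coe_sum, Submodule.coe_smul, Finset.sum_apply, Pi.smul_apply,
      smul_eq_mul] at h2
    exact h2.symm
  refine ⟨∑ i, zb.repr ⟨z, hz⟩ i * a i, ?_⟩
  have hsf : s f = ∑ e ∈ I, s e * (z e : ℝ) := by
    rw [Finset.sum_eq_single f]
    · simp [hzdef]
    · intro e he hne
      have heB : e ∉ B := fun h => by
        have := hBI h
        rw [Finset.mem_compl] at this
        exact this he
      simp [hzdef, hne, heB]
    · intro h; exact absurd hf h
  rw [hsf]
  push_cast
  have h3 : ∀ e, s e * (z e : ℝ)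
      = ∑ i, (zb.repr ⟨z, hz⟩ i : ℝ) * (s e * (cfg v zb e i : ℝ)) := by
    intro e
    rw [hrep e]
    push_cast
    rw [Finset.mul_sum]
    exact Finset.sum_congr rfl fun i _ => by ring
  rw [Finset.sum_congr rfl (fun e _ => h3 e), Finset.sum_comm]
  refine Finset.sum_congr rfl fun i _ => ?_
  rw [← Finset.mul_sum]
  have h4 := congrFun ha i
  simp only [Finset.sum_apply, Pi.smul_apply, smul_eq_mul, rv] at h4
  rw [h4]

/-- rational independence of the basis of the kernel lattice -/
theorem zb_indep : LinearIndependent ℚ (fun i : Fin n => (fun e => (cfg v zb e i : ℚ))) := by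
  rw [← LinearIndependent.iff_fractionRing ℤ ℚ]
  have h1 : LinearIndependent ℤ (fun i : Fin n => (zb i : E → ℤ)) :=
    zb.linearIndependent.map' (kerLat v).subtype (Submodule.ker_subtype _)
  have h2 := h1.map' ((Algebra.linearMap ℤ ℚ).compLeft E) (by
    rw [LinearMap.ker_eq_bot]
    intro u w huw
    ext e
    have := congrFun huw e
    simpa using this)
  exact h2

theorem cfg_dual (f : Module.Dual ℚ (Fin n → ℚ)) (hf : ∀ e, f (qv (cfg v zb e)) = 0) : f = 0 := by
  have hc : ∀ i, f (Pi.single i 1) = 0 := by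
    have := Fintype.linearIndependent_iff.mp (zb_indep v zb) (fun i => f (Pi.single i 1)) (by
      ext e
      have h1 := hf e
      rw [dual_coord] at h1
      simp only [Finset.sum_apply, Pi.smul_apply, smul_eq_mul, Pi.zero_apply]
      rw [← h1]
      exact Finset.sum_congr rfl fun i _ => by simp only [qv]; ring)
    exact this
  apply LinearMap.ext
  intro w
  rw [dual_coord, LinearMap.zero_apply]
  exact Finset.sum_eq_zero fun i _ => by rw [hc i, mul_zero]

theorem cfg_top : sp ℚ (fun e => qv (cfg v zb e)) (univ : Finset E) = ⊤ := by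
  by_contra hne
  obtain ⟨f, hf0, hf⟩ := Submodule.exists_le_ker_of_lt_top _ (lt_of_le_of_ne le_top hne)
  apply hf0
  apply cfg_dual v zb
  intro e
  exact hf (Submodule.subset_span ⟨e, by simp, rfl⟩)

open Classical in
theorem cfg_rank (S : Submodule ℚ (Fin n → ℚ)) :
    n + Module.finrank ℚ (sp ℚ (fun e => qv (v e))
        (univ.filter (fun e => ¬ qv (cfg v zb e) ∈ S)))
      ≤ Module.finrank ℚ S + (univ.filter (fun e => ¬ qv (cfg v zb e) ∈ S)).card := by
  set A : Finset E := univ.filter (fun e => ¬ qv (cfg v zb e) ∈ S) with hA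
  let D : (A → ℚ) →ₗ[ℚ] (ι → ℚ) := Fintype.linearCombination ℚ (fun e : A => qv (v e))
  let Ψ : S.dualAnnihilator →ₗ[ℚ] (A → ℚ) :=
    { toFun := fun f => fun e => f.1 (qv (cfg v zb e))
      map_add' := by intro f g; ext e; simp
      map_smul' := by intro c f; ext e; simp }
  have hΨ0 : ∀ (f : S.dualAnnihilator) (e : E), e ∉ A → f.1 (qv (cfg v zb e)) = 0 := by
    intro f e he
    rw [hA, Finset.mem_filter] at he
    push Not at he
    have h1 : qv (cfg v zb e) ∈ S := he (Finset.mem_univ _)
    exact (Submodule.mem_dualAnnihilator f.1).mp f.2 _ h1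
  have hker : ∀ f, Ψ f ∈ LinearMap.ker D := by
    intro f
    rw [LinearMap.mem_ker]
    ext k
    simp only [D, Fintype.linearCombination_apply, Finset.sum_apply, Pi.smul_apply, smul_eq_mul,
      Pi.zero_apply]
    have h1 : ∑ e : A, (Ψ f) e * qv (v e) k = ∑ e ∈ A, f.1 (qv (cfg v zb e)) * qv (v e) k :=
      Finset.sum_coe_sort A (fun e => f.1 (qv (cfg v zb e)) * qv (v e) k)
    rw [h1, Finset.sum_subset (Finset.subset_univ A)
      (fun e _ he => by rw [hΨ0 f e he, zero_mul])]
    have h2 : ∑ e, f.1 (qv (cfg v zb e)) * qv (v e) k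
        = f.1 (∑ e, qv (v e) k • qv (cfg v zb e)) := by
      rw [map_sum]
      exact Finset.sum_congr rfl fun e _ => by rw [map_smul, smul_eq_mul]; ring
    rw [h2]
    have h3 : ∑ e, qv (v e) k • qv (cfg v zb e) = 0 := by
      ext i
      have h4 := (mem_kerLat v _).mp (zb i).2 k
      have h5 := congrArg (Int.cast : ℤ → ℚ) h4
      push_cast at h5
      simp only [Finset.sum_apply, Pi.smul_apply, smul_eq_mul, Pi.zero_apply, qv, cfg]
      rw [← h5]
      exact Finset.sum_congr rfl fun e _ => by ring
    rw [h3, map_zero]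
  let Ψ' : S.dualAnnihilator →ₗ[ℚ] LinearMap.ker D := Ψ.codRestrict _ hker
  have hinj : Function.Injective Ψ' := by
    rw [← LinearMap.ker_eq_bot, LinearMap.ker_eq_bot']
    intro f hf
    apply Subtype.ext
    apply cfg_dual v zb
    intro e
    by_cases he : e ∈ A
    · have h1 : Ψ f = 0 := congrArg Subtype.val hf
      exact congrFun h1 ⟨e, he⟩
    · exact hΨ0 f e he
  have h1 := LinearMap.finrank_le_finrank_of_injective hinj
  have h2 := Subspace.finrank_add_finrank_dualAnnihilator_eq S
  rw [Module.finrank_fintype_fun_eq_card, Fintype.card_fin] at h2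
  have h3 := LinearMap.finrank_range_add_finrank_ker D
  rw [Module.finrank_fintype_fun_eq_card, Fintype.card_coe] at h3
  have h4 : LinearMap.range D = sp ℚ (fun e => qv (v e)) A := by
    simp only [D]
    rw [Fintype.range_linearCombination]
    unfold sp
    congr 1
    rw [Set.image_eq_range]
    rfl
  rw [h4] at h3
  omega

end Basis

end Pool.Agent.H170.Reg
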