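import Pool.Agent.H170.Reg.Good

set_option autoImplicit false
set_option linter.unusedSectionVars false

/-! 3-edge-connected graphs in which families of disjoint 3-edge-cuts are sparsely joined. -/

namespace Pool.Agent.H170.Reg

open Finset

variable {V E : Type} [Fintype V] [DecidableEq V] [Fintype E] [DecidableEq E]

/-- the edges in the boundary -/
def bdS (src dst : E → V) (X : Finset V) : Finset E :=
  univ.filter (fun e => ¬ (src e ∈ X ↔ dst e ∈ X))

open Classical in
theorem strength_fam (src dst : E → V) (F : Finset E)
    (h3 : ∀ X : Finset V, X.Nonempty → X ≠ univ → 3 ≤ (bdS src dst X).card)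
    (hX : ∀ (t : ℕ) (X : Fin t → Finset V), (∀ i j, i ≠ j → Disjoint (X i) (X j)) →
      (∀ i, (bdS src dst (X i)).card = 3 ∧ Disjoint (bdS src dst (X i)) F) →
      2 * (univ.filter (fun e => ∃ i j, i ≠ j ∧ src e ∈ X i ∧ dst e ∈ X j)).card ≤ t + 20)
    (c : ℕ) (π : V → Fin c) (hπ : Function.Surjective π)
    (hF : ∀ e ∈ F, π (src e) = π (dst e)) :
    5 * c ≤ 3 * (univ.filter (fun e => π (src e) ≠ π (dst e))).card + 5 := by
  set cross := univ.filter (fun e => π (src e) ≠ π (dst e)) with hcross
  let A : Fin c → Finset V := fun i => univ.filter (fun v => π v = i)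
  have hmem : ∀ i v, v ∈ A i ↔ π v = i := fun i v => by simp [A]
  have hne : ∀ i, (A i).Nonempty := fun i => by
    obtain ⟨v, hv⟩ := hπ i
    exact ⟨v, (hmem i v).mpr hv⟩
  have hsum : ∑ i, (bdS src dst (A i)).card = 2 * cross.card := by
    unfold bdS
    simp only [Finset.card_filter]
    rw [Finset.sum_comm, hcross, Finset.card_filter, Finset.mul_sum]
    refine Finset.sum_congr rfl fun e _ => ?_
    simp only [hmem]
    by_cases hab : π (src e) = π (dst e)
    · simp [hab]
    · rw [if_pos hab, ← Finset.card_filter]
      have h1 : univ.filter (fun i => ¬ (π (src e) = i ↔ π (dst e) = i))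
          = {π (src e), π (dst e)} := by
        ext i
        simp only [Finset.mem_filter, Finset.mem_univ, true_and, Finset.mem_insert,
          Finset.mem_singleton]
        constructor
        · intro h
          by_cases h1 : π (src e) = i
          · exact Or.inl h1.symm
          · by_cases h2 : π (dst e) = i
            · exact Or.inr h2.symm
            · exact absurd (iff_of_false h1 h2) h
        · rintro (h | h)
          · intro h1
            exact hab (h.symm.trans (h1.mp h.symm).symm)
          · intro h1
            exact hab ((h1.mpr h.symm).trans h)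
      rw [h1, Finset.card_pair hab, mul_one]
  rcases Nat.lt_or_ge c 2 with hc2 | hc2
  · omega
  have hA : ∀ i, A i ≠ univ := by
    intro i h
    obtain ⟨j, hj⟩ : ∃ j : Fin c, j ≠ i := by
      by_cases h0 : i = ⟨0, by omega⟩
      · exact ⟨⟨1, by omega⟩, by rw [h0]; intro h; simp at h⟩
      · exact ⟨⟨0, by omega⟩, fun h => h0 h.symm⟩
    obtain ⟨v, hv⟩ := hπ j
    have : v ∈ A i := by rw [h]; exact Finset.mem_univ _
    rw [hmem, hv] at this
    exact hj this
  have hge : ∀ i, 3 ≤ (bdS src dst (A i)).card := fun i => h3 _ (hne i) (hA i)
  -- the classes with three boundary edges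
  let I : Finset (Fin c) := univ.filter (fun i => (bdS src dst (A i)).card = 3)
  let φ : Fin I.card ≃ I := I.equivFin.symm
  let X : Fin I.card → Finset V := fun i => A (φ i).1
  have hI3 : ∀ i : I, (bdS src dst (A i.1)).card = 3 := fun i => (Finset.mem_filter.mp i.2).2
  have hbound := hX I.card X (by
      intro i j hij
      rw [Finset.disjoint_left]
      intro v hv hv'
      have h1 := (hmem _ _).mp hv
      have h2 := (hmem _ _).mp hv'
      exact hij (φ.injective (Subtype.ext (h1.symm.trans h2)))) (by
      intro i
      refine ⟨hI3 (φ i), ?_⟩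
      rw [Finset.disjoint_left]
      intro e he heF
      have h1 := (Finset.mem_filter.mp he).2
      apply h1
      rw [hmem, hmem, hF e heF])
  have h1 : 4 * c ≤ 2 * cross.card + I.card := by
    rw [← hsum, Finset.card_filter, ← Finset.sum_add_distrib]
    have h2 : ∑ i : Fin c, 4 ≤ ∑ i, ((bdS src dst (A i)).card +
        if (bdS src dst (A i)).card = 3 then 1 else 0) := by
      refine Finset.sum_le_sum fun i _ => ?_
      have := hge i
      by_cases h : (bdS src dst (A i)).card = 3
      · rw [if_pos h]; omega
      · rw [if_neg h]; omega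
    rw [Finset.sum_const, Finset.card_univ, Fintype.card_fin, smul_eq_mul] at h2
    omega
  have h2 : 3 * I.card ≤ cross.card +
      (univ.filter (fun e => ∃ i j, i ≠ j ∧ src e ∈ X i ∧ dst e ∈ X j)).card := by
    have h4 : ∑ i ∈ I, (bdS src dst (A i)).card = 3 * I.card := by
      rw [Finset.sum_congr rfl (fun i hi => (Finset.mem_filter.mp hi).2), Finset.sum_const,
        smul_eq_mul, mul_comm]
    rw [← h4]
    unfold bdS
    simp only [Finset.card_filter]
    rw [Finset.sum_comm, hcross, Finset.card_filter, ← Finset.sum_add_distrib]
    refine Finset.sum_le_sum fun e _ => ?_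
    rw [← Finset.card_filter]
    simp only [hmem]
    by_cases hab : π (src e) = π (dst e)
    · have h5 : I.filter (fun i => ¬ (π (src e) = i ↔ π (dst e) = i)) = ∅ := by
        rw [Finset.filter_eq_empty_iff]
        intro i _
        rw [hab]; simp
      rw [h5]; simp
    · rw [if_pos hab]
      have hsub : I.filter (fun i => ¬ (π (src e) = i ↔ π (dst e) = i))
          ⊆ {π (src e), π (dst e)} ∩ I := by
        intro i hi
        rw [Finset.mem_filter] at hi
        rw [Finset.mem_inter, Finset.mem_insert, Finset.mem_singleton]
        refine ⟨?_, hi.1⟩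
        by_contra hcon
        push Not at hcon
        exact hi.2 (iff_of_false (fun h => hcon.1 h.symm) (fun h => hcon.2 h.symm))
      have h6 := Finset.card_le_card hsub
      by_cases hs : π (src e) ∈ I
      · by_cases hd : π (dst e) ∈ I
        · rw [if_pos]
          · have h7 : (({π (src e), π (dst e)} : Finset (Fin c)) ∩ I).card ≤ 2 :=
              (Finset.card_le_card Finset.inter_subset_left).trans (Finset.card_le_two)
            omega
          · refine ⟨φ.symm ⟨_, hs⟩, φ.symm ⟨_, hd⟩, ?_, ?_, ?_⟩
            · intro h
              have := φ.symm.injective h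
              exact hab (congrArg Subtype.val this)
            · simp [X, hmem]
            · simp [X, hmem]
        · have h7 : (({π (src e), π (dst e)} : Finset (Fin c)) ∩ I) ⊆ {π (src e)} := by
            intro v hv
            rw [Finset.mem_inter, Finset.mem_insert, Finset.mem_singleton] at hv
            rw [Finset.mem_singleton]
            rcases hv.1 with h | h
            · exact h
            · exact absurd (h ▸ hv.2) hd
          have h8 := Finset.card_le_card h7
          rw [Finset.card_singleton] at h8
          omega
      · have h7 : (({π (src e), π (dst e)} : Finset (Fin c)) ∩ I) ⊆ {π (dst e)} := by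
          intro v hv
          rw [Finset.mem_inter, Finset.mem_insert, Finset.mem_singleton] at hv
          rw [Finset.mem_singleton]
          rcases hv.1 with h | h
          · exact absurd (h ▸ hv.2) hs
          · exact h
        have h8 := Finset.card_le_card h7
        rw [Finset.card_singleton] at h8
        omega
  omega

/-- **Nowhere-zero 5-flows** for 3-edge-connected graphs with a sequence of cycles with at most
four new edges each, and a sparsity condition on families of 3-edge-cuts avoiding the cycles. -/
theorem five_flow (src dst : E → V) (m : ℕ) (C : Fin m → Finset E)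
    (hC : ∀ i, ∃ z : E → ℤ, (∀ e, z e = 0 ∨ z e = 1 ∨ z e = -1) ∧ (∀ e, z e ≠ 0 ↔ e ∈ C i) ∧
      ∀ v, ∑ e, z e * ((if src e = v then 1 else 0) - (if dst e = v then 1 else 0)) = 0)
    (hnew : ∀ i, (C i \ (univ.filter (fun j => j < i)).biUnion C).card ≤ 4)
    (h3 : ∀ X : Finset V, X.Nonempty → X ≠ univ → 3 ≤ (bdS src dst X).card)
    (hX : ∀ (t : ℕ) (X : Fin t → Finset V), (∀ i j, i ≠ j → Disjoint (X i) (X j)) →
      (∀ i, (bdS src dst (X i)).card = 3 ∧ ∀ j, Disjoint (bdS src dst (X i)) (C j)) →
      2 * (univ.filter (fun e => ∃ i j, i ≠ j ∧ src e ∈ X i ∧ dst e ∈ X j)).card ≤ t + 20) :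
    ∃ f : E → ℤ, (∀ e, 1 ≤ |f e| ∧ |f e| ≤ 4) ∧
      ∀ v, ∑ e, f e * ((if src e = v then 1 else 0) - (if dst e = v then 1 else 0)) = 0 := by
  classical
  -- the union of the first cycles is good
  have hgood : ∀ n : ℕ, n ≤ m → Good 5 src dst ((univ.filter (fun j : Fin m => j.1 < n)).biUnion C)
      := by
    intro n
    induction n with
    | zero =>
      intro _
      have : (univ.filter (fun j : Fin m => j.1 < 0)) = ∅ := by simp
      rw [this, Finset.biUnion_empty]
      exact good_empty 5 src dst
    | succ n ih =>
      intro hn
      have h1 := ih (by omega)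
      let i : Fin m := ⟨n, by omega⟩
      obtain ⟨z, hz, hzC, hb⟩ := hC i
      have h2 : (univ.filter (fun j : Fin m => j < i)) = (univ.filter (fun j : Fin m => j.1 < n)) := by
        ext j
        simp only [Finset.mem_filter, Finset.mem_univ, true_and]
        exact Iff.rfl
      have h3' := hnew i
      rw [h2] at h3'
      have h4 := good_add 5 (by norm_num) src dst _ (C i) h1 z hz hzC hb h3'
      have h5 : (univ.filter (fun j : Fin m => j.1 < n + 1)).biUnion C
          = (univ.filter (fun j : Fin m => j.1 < n)).biUnion C ∪ C i := by
        ext e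
        simp only [Finset.mem_biUnion, Finset.mem_filter, Finset.mem_univ, true_and,
          Finset.mem_union]
        constructor
        · rintro ⟨j, hj, he⟩
          rcases Nat.lt_succ_iff_lt_or_eq.mp hj with h | h
          · exact Or.inl ⟨j, h, he⟩
          · right
            have : j = i := Fin.ext h
            rwa [← this]
        · rintro (⟨j, hj, he⟩ | he)
          · exact ⟨j, by omega, he⟩
          · exact ⟨i, Nat.lt_succ_self n, he⟩
      rw [h5]
      exact h4
  have hall := hgood m le_rfl
  have hm : (univ.filter (fun j : Fin m => j.1 < m)) = univ := by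
    ext j; simp
  rw [hm] at hall
  have h6 := good_strength 5 (by norm_num) src dst _ hall (by
    intro c π hπ hFπ
    have h7 := strength_fam src dst (univ.biUnion C) h3 (by
      intro t X hdis hcard
      apply hX t X hdis
      intro i
      refine ⟨(hcard i).1, fun j => ?_⟩
      exact Finset.disjoint_of_subset_right
        (Finset.subset_biUnion_of_mem C (Finset.mem_univ j)) (hcard i).2) c π hπ hFπ
    have h8 : (5 - 2 : ℕ) = 3 := by norm_num
    rw [h8]
    convert h7)
  obtain ⟨f, hf, hfb⟩ := flow_of_good 5 (by norm_num) src dst h6
  refine ⟨f, fun e => ?_, hfb⟩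
  have := hf e
  norm_num at this
  exact this

end Pool.Agent.H170.Reg
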