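import Pool.Agent.H170.Reg.Gr

set_option autoImplicit false
set_option linter.unusedSectionVars false

/-! Edge sets on which every boundary can be attained avoiding one forbidden value per edge. -/

namespace Pool.Agent.H170.Reg

open Finset Matrix
open Pool.Agent.H239R2.Cover
open Pool.Agent.Helper879.ECD (sp Ind)

variable {V E : Type} [Fintype V] [DecidableEq V] [Fintype E] [DecidableEq E]

/-- incidence numbers modulo `k` -/
def ic (k : ℕ) (src dst : E → V) (e : E) (v : V) : ZMod k :=
  (if src e = v then 1 else 0) - (if dst e = v then 1 else 0)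

/-- Every function on `F` can be replaced by one with the same boundary avoiding the forbidden
values. -/
def Good (k : ℕ) (src dst : E → V) (F : Finset E) : Prop :=
  ∀ T g : E → ZMod k, ∃ f : E → ZMod k, (∀ e ∈ F, f e ≠ T e) ∧
    ∀ v, ∑ e ∈ F, (f e - g e) * ic k src dst e v = 0

theorem good_empty (k : ℕ) (src dst : E → V) : Good k src dst ∅ := by
  intro T g
  exact ⟨g, by simp, by simp⟩

/-- Adding the support of a `{0, ±1}`-flow with at most `k - 1` new edges. -/
theorem good_add (k : ℕ) (hk : 2 ≤ k) (src dst : E → V) (F C : Finset E) (hF : Good k src dst F)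
    (z : E → ℤ) (hz : ∀ e, z e = 0 ∨ z e = 1 ∨ z e = -1) (hC : ∀ e, z e ≠ 0 ↔ e ∈ C)
    (hb : ∀ v, ∑ e, z e * ((if src e = v then 1 else 0) - (if dst e = v then 1 else 0)) = 0)
    (hnew : (C \ F).card ≤ k - 1) : Good k src dst (F ∪ C) := by
  classical
  have : NeZero k := ⟨by omega⟩
  intro T g
  -- choose the constant
  obtain ⟨c, hc⟩ : ∃ c : ZMod k, ∀ e ∈ C \ F, g e + c * (z e : ZMod k) ≠ T e := by
    by_contra hcon
    push Not at hcon
    choose φ hφ using hcon
    have hle : (univ : Finset (ZMod k)).card ≤ (C \ F).card := by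
      apply Finset.card_le_card_of_injOn φ
      · intro c _
        exact (hφ c).1
      · intro c _ d _ hcd
        have h1 := (hφ c).2
        have h2 := (hφ d).2
        have h3 : φ c = φ d := hcd
        rw [h3] at h1
        have h4 : c * (z (φ d) : ZMod k) = d * (z (φ d) : ZMod k) := by
          have := h1.trans h2.symm
          exact add_left_cancel this
        have h5 : z (φ d) ≠ 0 := (hC _).mpr (Finset.mem_sdiff.mp (hφ d).1).1
        rcases hz (φ d) with h | h | h
        · exact absurd h h5
        · rw [h] at h4; simpa using h4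
        · rw [h] at h4; simpa using h4
    rw [Finset.card_univ, ZMod.card] at hle
    omega
  obtain ⟨f, hf, hfb⟩ := hF T (fun e => g e + c * (z e : ZMod k))
  refine ⟨fun e => if e ∈ F then f e else g e + c * (z e : ZMod k), ?_, ?_⟩
  · intro e he
    by_cases heF : e ∈ F
    · simp only [if_pos heF]; exact hf e heF
    · simp only [if_neg heF]
      apply hc
      rw [Finset.mem_sdiff]
      rcases Finset.mem_union.mp he with h | h
      · exact absurd h heF
      · exact ⟨h, heF⟩
  · intro v
    have h1 : ∑ e ∈ F ∪ C, ((if e ∈ F then f e else g e + c * (z e : ZMod k)) - g e)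
          * ic k src dst e v
        = ∑ e ∈ F, (f e - (g e + c * (z e : ZMod k))) * ic k src dst e v
          + ∑ e ∈ F ∪ C, c * (z e : ZMod k) * ic k src dst e v := by
      have h2 : ∑ e ∈ F, (f e - (g e + c * (z e : ZMod k))) * ic k src dst e v
          = ∑ e ∈ F ∪ C, (if e ∈ F then (f e - (g e + c * (z e : ZMod k))) * ic k src dst e v
            else 0) := by
        rw [← Finset.sum_filter]
        congr 1
        ext e
        simp only [Finset.mem_filter, Finset.mem_union]
        tauto
      rw [h2, ← Finset.sum_add_distrib]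
      refine Finset.sum_congr rfl fun e _ => ?_
      by_cases heF : e ∈ F
      · simp only [if_pos heF]; ring
      · simp only [if_neg heF]; ring
    rw [h1, hfb v, zero_add]
    have h3 : ∑ e ∈ F ∪ C, c * (z e : ZMod k) * ic k src dst e v
        = ∑ e, c * (z e : ZMod k) * ic k src dst e v := by
      apply Finset.sum_subset (Finset.subset_univ _)
      intro e _ he
      have : z e = 0 := by
        by_contra h
        exact he (Finset.mem_union_right _ ((hC e).mp h))
      rw [this]; simp
    rw [h3]
    have h4 := congrArg (Int.cast : ℤ → ZMod k) (hb v)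
    push_cast at h4
    have h5 : ∑ e, c * (z e : ZMod k) * ic k src dst e v
        = c * ∑ e, (z e : ZMod k) * ic k src dst e v := by
      rw [Finset.mul_sum]
      exact Finset.sum_congr rfl fun e _ => by ring
    rw [h5]
    unfold ic
    rw [h4, mul_zero]

open Classical in
/-- If `F` is good and the partitions which are constant on the edges of `F` have enough crossing
edges, then all edges are good. -/
theorem good_strength (k : ℕ) (hk : 3 ≤ k) (src dst : E → V) (F : Finset E)
    (hF : Good k src dst F)
    (hpart : ∀ (c : ℕ) (π : V → Fin c), Function.Surjective π →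
      (∀ e ∈ F, π (src e) = π (dst e)) →
      k * c ≤ (k - 2) * (univ.filter (fun e => π (src e) ≠ π (dst e))).card + k) :
    Good k src dst univ := by
  have : NeZero k := ⟨by omega⟩
  intro T g
  set N : ℕ := k * Fintype.card V with hN
  let E' := {e : E // e ∉ F} ⊕ ({e : E // e ∈ F} × Fin N)
  let pr' : E' → E := fun x => Sum.elim (fun e => e.1) (fun p => p.1.1) x
  let src' : E' → V := fun x => src (pr' x)
  let dst' : E' → V := fun x => dst (pr' x)
  let T' : E' → ℤ := fun x => (((T (pr' x) - g (pr' x)) : ZMod k).val : ℤ)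
  obtain ⟨f', hf', hb', -⟩ := graph_mod src' dst' k hk (by
    intro c π hπ
    by_cases hcon : ∀ e ∈ F, π (src e) = π (dst e)
    · refine (hpart c π hπ hcon).trans ?_
      apply Nat.add_le_add_right
      apply Nat.mul_le_mul_left
      have hnF : ∀ e ∈ univ.filter (fun e => π (src e) ≠ π (dst e)), e ∉ F := by
        intro e he heF
        exact (Finset.mem_filter.mp he).2 (hcon e heF)
      apply Finset.card_le_card_of_injOn
        (fun e => if h : e ∉ F then (Sum.inl ⟨e, h⟩ : E') else
          Sum.inr ⟨⟨e, not_not.mp h⟩, ⟨0, by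
            have hV : 0 < Fintype.card V := Fintype.card_pos_iff.mpr ⟨src e⟩
            rw [hN]
            exact Nat.mul_pos (by omega) hV⟩⟩)
      · intro e he
        have h1 := hnF e he
        simp only [h1, not_false_eq_true, dif_pos]
        rw [Finset.mem_coe, Finset.mem_filter]
        exact ⟨Finset.mem_univ _, (Finset.mem_filter.mp he).2⟩
      · intro e he e2 he2 h
        have h1 := hnF e he
        have h2 := hnF e2 he2
        simp only [h1, h2, not_false_eq_true, dif_pos] at h
        exact congrArg Subtype.val (Sum.inl.inj h)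
    · push Not at hcon
      obtain ⟨e, heF, hne⟩ := hcon
      have h1 : N ≤ (univ.filter (fun x : E' => π (src' x) ≠ π (dst' x))).card := by
        have h2 : (univ : Finset (Fin N)).card
            ≤ (univ.filter (fun x : E' => π (src' x) ≠ π (dst' x))).card := by
          apply Finset.card_le_card_of_injOn (fun i => (Sum.inr (⟨e, heF⟩, i) : E'))
          · intro i _
            rw [Finset.mem_coe, Finset.mem_filter]
            exact ⟨Finset.mem_univ _, hne⟩
          · intro i _ j _ h
            exact (Prod.mk.inj (Sum.inr.inj h)).2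
        rwa [Finset.card_univ, Fintype.card_fin] at h2
      have hc : c ≤ Fintype.card V := by
        have := Fintype.card_le_of_surjective π hπ
        rwa [Fintype.card_fin] at this
      have h3 : k * c ≤ N := by rw [hN]; exact Nat.mul_le_mul_left k hc
      have h4 : N ≤ (k - 2) * (univ.filter (fun x : E' => π (src' x) ≠ π (dst' x))).card := by
        calc N ≤ 1 * (univ.filter (fun x : E' => π (src' x) ≠ π (dst' x))).card := by
              rw [one_mul]; exact h1
          _ ≤ _ := Nat.mul_le_mul_right _ (by omega)
      omega) T'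
  -- the collapsed flow
  let h : E → ZMod k := fun e =>
    if he : e ∈ F then ∑ i : Fin N, (f' (Sum.inr (⟨e, he⟩, i)) : ZMod k)
    else (f' (Sum.inl ⟨e, he⟩) : ZMod k)
  have hhb : ∀ v, ∑ e, h e * ic k src dst e v = 0 := by
    intro v
    have h1 := (ZMod.intCast_zmod_eq_zero_iff_dvd _ k).mpr (hb' v)
    push_cast at h1
    rw [← h1, Fintype.sum_sum_type, Fintype.sum_prod_type]
    rw [← Finset.sum_filter_add_sum_filter_not univ (fun e => e ∉ F)]
    congr 1
    · rw [Finset.sum_subtype (p := fun e => e ∉ F) (univ.filter (fun e => e ∉ F))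
        (by intro e; simp) (fun e => h e * ic k src dst e v)]
      refine Finset.sum_congr rfl fun e _ => ?_
      simp only [h, dif_neg e.2, ic]
      rfl
    · rw [Finset.sum_subtype (p := fun e => e ∈ F) (univ.filter (fun e => ¬ e ∉ F))
        (by intro e; simp) (fun e => h e * ic k src dst e v)]
      refine Finset.sum_congr rfl fun e _ => ?_
      simp only [h, dif_pos e.2, ic, Finset.sum_mul]
      rfl
  have hha : ∀ e, e ∉ F → g e + h e ≠ T e := by
    intro e he hcon
    have h1 := hf' (Sum.inl ⟨e, he⟩)
    have h2 : h e = (f' (Sum.inl ⟨e, he⟩) : ZMod k) := by simp only [h, dif_neg he]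
    have h3 : ((f' (Sum.inl ⟨e, he⟩) - T' (Sum.inl ⟨e, he⟩) : ℤ) : ZMod k) = 0 := by
      push_cast
      rw [← h2]
      have h4 : ((T' (Sum.inl ⟨e, he⟩) : ℤ) : ZMod k) = T e - g e := by
        simp only [T']
        rw [Int.cast_natCast, ZMod.natCast_val, ZMod.cast_id]
        rfl
      rw [h4, ← hcon]; ring
    rw [ZMod.intCast_zmod_eq_zero_iff_dvd] at h3
    obtain ⟨m, hm⟩ := h3
    have hk0 : (0:ℤ) < k := by exact_mod_cast (by omega : 0 < k)
    have h5 : (0:ℤ) < k * m := by omega
    have h6 : (k:ℤ) * m < k := by omega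
    have h7 : 0 < m := by
      by_contra hc
      push Not at hc
      nlinarith
    nlinarith
  obtain ⟨f, hf, hfb⟩ := hF T (fun e => g e + h e)
  refine ⟨fun e => if e ∈ F then f e else g e + h e, ?_, ?_⟩
  · intro e _
    by_cases heF : e ∈ F
    · simp only [if_pos heF]; exact hf e heF
    · simp only [if_neg heF]; exact hha e heF
  · intro v
    have h1 : ∑ e, ((if e ∈ F then f e else g e + h e) - g e) * ic k src dst e v
        = ∑ e ∈ F, (f e - (g e + h e)) * ic k src dst e v + ∑ e, h e * ic k src dst e v := by
      have h2 : ∑ e ∈ F, (f e - (g e + h e)) * ic k src dst e v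
          = ∑ e, (if e ∈ F then (f e - (g e + h e)) * ic k src dst e v else 0) := by
        rw [← Finset.sum_filter]
        congr 1
        ext e; simp
      rw [h2, ← Finset.sum_add_distrib]
      refine Finset.sum_congr rfl fun e _ => ?_
      by_cases heF : e ∈ F
      · simp only [if_pos heF]; ring
      · simp only [if_neg heF]; ring
    rw [h1, hfb v, hhb v, add_zero]

/-- Integer flows from goodness of all edges. -/
theorem flow_of_good (k : ℕ) (hk : 2 ≤ k) (src dst : E → V) (h : Good k src dst univ) :
    ∃ F : E → ℤ, (∀ e, 1 ≤ |F e| ∧ |F e| ≤ k - 1) ∧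
      ∀ v, ∑ e, F e * ((if src e = v then 1 else 0) - (if dst e = v then 1 else 0)) = 0 := by
  classical
  have : NeZero k := ⟨by omega⟩
  rcases isEmpty_or_nonempty V with hV | ⟨⟨r⟩⟩
  · exact ⟨fun _ => 0, fun e => (hV.false (src e)).elim, fun v => (hV.false v).elim⟩
  obtain ⟨f, hf, hfb⟩ := h 0 0
  have hdiv : ∀ v : Rt r, (k : ℤ) ∣ ∑ e, ((f e).val : ℤ) * inc src dst r e v := by
    intro v
    rw [← ZMod.intCast_zmod_eq_zero_iff_dvd]
    push_cast
    have h1 := hfb v.1
    simp only [Pi.zero_apply, sub_zero] at h1
    rw [← h1]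
    refine Finset.sum_congr rfl fun e _ => ?_
    rw [ZMod.natCast_val, ZMod.cast_id]
    simp [inc, ic]
  choose a' ha' using hdiv
  obtain ⟨F, hF, hF0⟩ := int_of_mod (inc src dst r) (unimod_inc src dst r) k (by omega)
    (fun e => ((f e).val : ℤ)) a' (fun e => by
      have h1 : f e ≠ 0 := hf e (Finset.mem_univ _)
      have h2 : (f e).val ≠ 0 := by rwa [Ne, ZMod.val_eq_zero]
      have h3 := ZMod.val_lt (f e)
      constructor <;> omega) (by
      ext v
      simp only [Finset.sum_apply, Pi.smul_apply, smul_eq_mul]
      exact ha' v)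
  refine ⟨F, hF, fun v => flow_root src dst F r (fun v hv => ?_) v⟩
  have h2 := congrFun hF0 ⟨v, hv⟩
  simp only [Finset.sum_apply, Pi.smul_apply, smul_eq_mul, inc, Pi.zero_apply] at h2
  exact h2

end Pool.Agent.H170.Reg
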