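import Pool.Agent.H170.Reg.Flow

set_option autoImplicit false
set_option linter.unusedSectionVars false

/-! Multigraphs of strength at least `k / (k - 2)`. -/

namespace Pool.Agent.H170.Reg

open Finset Matrix
open Pool.Agent.H239R2.Cover
open Pool.Agent.Helper879.ECD (sp Ind)

open Classical in
/-- Packing of bases from a rank condition, over the reals. -/
theorem packing_basesR {ι E : Type} [Fintype ι] [DecidableEq ι] [Fintype E] [DecidableEq E]
    (x : E → ι → ℤ) (a b : ℕ) (ha : 0 < a) (hb : 0 < b)
    (hrc : ∀ S : Submodule ℝ (ι → ℝ), a * Fintype.card ι ≤ a * Module.finrank ℝ S +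
      b * (univ.filter (fun e => ¬ rv (x e) ∈ S)).card) :
    ∃ c : Fin a → ι → E × Fin b, Function.Injective (fun p : Fin a × ι => c p.1 p.2) ∧
      ∀ j, (Matrix.of (fun i => x (c j i).1)).det ≠ 0 := by
  let x' : E × Fin b → ι → ℤ := fun p => x p.1
  have huniv : sp ℝ (fun p : E × Fin b => rv (x' p)) (univ : Finset (E × Fin b)) = ⊤ := by
    have h1 := hrc (sp ℝ (fun p : E × Fin b => rv (x' p)) univ)
    have h2 : (univ.filter (fun e => ¬ rv (x e) ∈
        sp ℝ (fun p : E × Fin b => rv (x' p)) univ)) = ∅ := by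
      rw [Finset.filter_eq_empty_iff]
      intro e _
      rw [not_not]
      exact Submodule.subset_span ⟨(e, ⟨0, hb⟩), by simp, rfl⟩
    rw [h2, Finset.card_empty, mul_zero, add_zero] at h1
    apply Submodule.eq_top_of_finrank_eq
    apply le_antisymm (Submodule.finrank_le _)
    rw [Module.finrank_fintype_fun_eq_card]
    exact Nat.le_of_mul_le_mul_left h1 ha
  obtain ⟨I, hd, hI⟩ := Pool.Agent.H126R2.CDC.packK (F := ℝ) (K := Fin a)
    (x := fun p : E × Fin b => rv (x' p)) (by
      intro R
      rw [huniv, finrank_top, Module.finrank_fintype_fun_eq_card, Fintype.card_fin]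
      have h1 := hrc (sp ℝ (fun p : E × Fin b => rv (x' p)) R)
      have h2 : (univ.filter (fun p : E × Fin b => ¬ rv (x' p) ∈
          sp ℝ (fun p : E × Fin b => rv (x' p)) R)).card
          = b * (univ.filter (fun e => ¬ rv (x e) ∈
          sp ℝ (fun p : E × Fin b => rv (x' p)) R)).card := by
        have h3 : (univ.filter (fun p : E × Fin b => ¬ rv (x' p) ∈
            sp ℝ (fun p : E × Fin b => rv (x' p)) R))
            = (univ.filter (fun e => ¬ rv (x e) ∈
            sp ℝ (fun p : E × Fin b => rv (x' p)) R)) ×ˢ (univ : Finset (Fin b)) := by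
          ext p
          simp [x']
        rw [h3, Finset.card_product, Finset.card_univ, Fintype.card_fin, mul_comm]
      have h4 : a * Fintype.card ι ≤ a * Module.finrank ℝ
          (sp ℝ (fun p : E × Fin b => rv (x' p)) R) + (univ.filter (fun p : E × Fin b =>
          ¬ rv (x' p) ∈ sp ℝ (fun p : E × Fin b => rv (x' p)) R)).card := by
        rw [h2]; exact h1
      convert h4)
  have hbas : ∀ j, ∃ c : ι → E × Fin b, Function.Injective c ∧ (∀ i, c i ∈ I j) ∧
      (Matrix.of (fun i => x' (c i))).det ≠ 0 := by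
    intro j
    apply exists_basis_of_span
    have := hI j
    rw [huniv] at this
    exact this
  choose c hcinj hcI hcdet using hbas
  refine ⟨c, ?_, hcdet⟩
  rintro ⟨j, i⟩ ⟨j', i'⟩ h
  simp only at h
  have hjj : j = j' := by
    by_contra hne
    exact Finset.disjoint_left.mp (hd j j' hne) (hcI j i) (h ▸ hcI j' i')
  subst hjj
  rw [hcinj j h]

variable {V E : Type} [Fintype V] [DecidableEq V] [Fintype E] [DecidableEq E]

/-- the number of edges leaving `v` minus entering, weighted -/
theorem flow_root {R : Type} [CommRing R] (src dst : E → V) (f : E → R) (r : V)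
    (h : ∀ v, v ≠ r → ∑ e, f e * ((if src e = v then 1 else 0) - (if dst e = v then 1 else 0)) = 0)
    (v : V) :
    ∑ e, f e * ((if src e = v then (1:R) else 0) - (if dst e = v then 1 else 0)) = 0 := by
  by_cases hv : v = r
  · subst hv
    have h1 : ∑ u, ∑ e, f e * ((if src e = u then (1:R) else 0) - (if dst e = u then 1 else 0))
        = 0 := by
      rw [Finset.sum_comm]
      apply Finset.sum_eq_zero
      intro e _
      rw [← Finset.mul_sum, Finset.sum_sub_distrib]
      simp
    rw [← Finset.add_sum_erase Finset.univ _ (Finset.mem_univ v)] at h1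
    rw [Finset.sum_eq_zero (fun u hu => h u (Finset.ne_of_mem_erase hu)), add_zero] at h1
    exact h1
  · exact h v hv

open Classical in
/-- **Multigraphs of strength at least `k / (k - 2)`.** -/
theorem graph_mod (src dst : E → V) (k : ℕ) (hk : 3 ≤ k)
    (hpart : ∀ (c : ℕ) (π : V → Fin c), Function.Surjective π →
      k * c ≤ (k - 2) * (univ.filter (fun e => π (src e) ≠ π (dst e))).card + k)
    (T : E → ℤ) :
    ∃ f : E → ℤ, (∀ e, T e + 1 ≤ f e ∧ f e ≤ T e + k - 1) ∧
      (∀ v, (k : ℤ) ∣ ∑ e, f e * ((if src e = v then 1 else 0) - (if dst e = v then 1 else 0))) ∧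
      ((∀ e, T e = 0) → ∃ F : E → ℤ, (∀ e, 1 ≤ |F e| ∧ |F e| ≤ k - 1) ∧
        ∀ v, ∑ e, F e * ((if src e = v then 1 else 0) - (if dst e = v then 1 else 0)) = 0) := by
  rcases isEmpty_or_nonempty V with hV | ⟨⟨r⟩⟩
  · refine ⟨fun e => T e + 1, fun e => (hV.false (src e)).elim, fun v => (hV.false v).elim,
      fun _ => ⟨fun _ => 0, fun e => (hV.false (src e)).elim, fun v => (hV.false v).elim⟩⟩
  obtain ⟨c, hc, hdet⟩ := packing_basesR (inc src dst r) k (k - 2) (by omega) (by omega) (by
    intro S
    have h1 := rank_cond_partition src dst r k (k - 2) (by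
      intro c π hπ
      have := hpart c π hπ
      convert this) S
    convert h1)
  obtain ⟨f, a', hf, hs⟩ := mod_flow (inc src dst r) (unimod_inc src dst r) k (by omega) c hc
    hdet T
  refine ⟨f, hf, fun v => ?_, fun hT => ?_⟩
  · have h1 := flow_root (R := ZMod k) src dst (fun e => (f e : ZMod k)) r (by
      intro v hv
      have h2 := congrFun hs ⟨v, hv⟩
      simp only [Finset.sum_apply, Pi.smul_apply, smul_eq_mul, inc] at h2
      have h3 := congrArg (Int.cast : ℤ → ZMod k) h2
      push_cast at h3
      simp only [CharP.cast_eq_zero, zero_mul] at h3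
      exact h3) v
    rw [← ZMod.intCast_zmod_eq_zero_iff_dvd]
    push_cast
    exact h1
  · obtain ⟨F, hF, hF0⟩ := int_of_mod (inc src dst r) (unimod_inc src dst r) k (by omega) f a'
      (fun e => by have := hf e; rw [hT e] at this; constructor <;> omega) hs
    refine ⟨F, hF, fun v => flow_root src dst F r (fun v hv => ?_) v⟩
    have h2 := congrFun hF0 ⟨v, hv⟩
    simp only [Finset.sum_apply, Pi.smul_apply, smul_eq_mul, inc, Pi.zero_apply] at h2
    exact h2

end Pool.Agent.H170.Reg
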