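import Pool.Agent.H170.Reg.Dual

set_option autoImplicit false
set_option linter.unusedSectionVars false

/-! Nowhere-zero tensions modulo `k` of totally unimodular matrices. -/

namespace Pool.Agent.H170.Reg

open Finset Matrix
open Pool.Agent.H239R2.Cover
open Pool.Agent.Helper879.ECD (sp Ind)

variable {ι E : Type} [Fintype ι] [DecidableEq ι] [Fintype E] [DecidableEq E]

open Classical in
/-- Packing of bases from a rank condition, over the rationals. -/
theorem packing_bases (x : E → ι → ℤ) (a b : ℕ) (ha : 0 < a) (hb : 0 < b)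
    (hrc : ∀ S : Submodule ℚ (ι → ℚ), a * Fintype.card ι ≤ a * Module.finrank ℚ S +
      b * (univ.filter (fun e => ¬ qv (x e) ∈ S)).card) :
    ∃ c : Fin a → ι → E × Fin b, Function.Injective (fun p : Fin a × ι => c p.1 p.2) ∧
      ∀ j, (Matrix.of (fun i => x (c j i).1)).det ≠ 0 := by
  let x' : E × Fin b → ι → ℤ := fun p => x p.1
  have huniv : sp ℚ (fun p : E × Fin b => qv (x' p)) (univ : Finset (E × Fin b)) = ⊤ := by
    have h1 := hrc (sp ℚ (fun p : E × Fin b => qv (x' p)) univ)
    have h2 : (univ.filter (fun e => ¬ qv (x e) ∈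
        sp ℚ (fun p : E × Fin b => qv (x' p)) univ)) = ∅ := by
      rw [Finset.filter_eq_empty_iff]
      intro e _
      rw [not_not]
      exact Submodule.subset_span ⟨(e, ⟨0, hb⟩), by simp, rfl⟩
    rw [h2, Finset.card_empty, mul_zero, add_zero] at h1
    apply Submodule.eq_top_of_finrank_eq
    apply le_antisymm (Submodule.finrank_le _)
    rw [Module.finrank_fintype_fun_eq_card]
    exact Nat.le_of_mul_le_mul_left h1 ha
  obtain ⟨I, hd, hI⟩ := Pool.Agent.H126R2.CDC.packK (F := ℚ) (K := Fin a)
    (x := fun p : E × Fin b => qv (x' p)) (by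
      intro R
      rw [huniv, finrank_top, Module.finrank_fintype_fun_eq_card, Fintype.card_fin]
      have h1 := hrc (sp ℚ (fun p : E × Fin b => qv (x' p)) R)
      have h2 : (univ.filter (fun p : E × Fin b => ¬ qv (x' p) ∈
          sp ℚ (fun p : E × Fin b => qv (x' p)) R)).card
          = b * (univ.filter (fun e => ¬ qv (x e) ∈
          sp ℚ (fun p : E × Fin b => qv (x' p)) R)).card := by
        have h3 : (univ.filter (fun p : E × Fin b => ¬ qv (x' p) ∈
            sp ℚ (fun p : E × Fin b => qv (x' p)) R))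
            = (univ.filter (fun e => ¬ qv (x e) ∈
            sp ℚ (fun p : E × Fin b => qv (x' p)) R)) ×ˢ (univ : Finset (Fin b)) := by
          ext p
          simp [x']
        rw [h3, Finset.card_product, Finset.card_univ, Fintype.card_fin, mul_comm]
      have h4 : a * Fintype.card ι ≤ a * Module.finrank ℚ
          (sp ℚ (fun p : E × Fin b => qv (x' p)) R) + (univ.filter (fun p : E × Fin b =>
          ¬ qv (x' p) ∈ sp ℚ (fun p : E × Fin b => qv (x' p)) R)).card := by
        rw [h2]; exact h1
      convert h4)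
  have hbas : ∀ j, ∃ c : ι → E × Fin b, Function.Injective c ∧ (∀ i, c i ∈ I j) ∧
      (Matrix.of (fun i => x' (c i))).det ≠ 0 := by
    intro j
    apply exists_basis_of_spanQ
    have := hI j
    rw [huniv] at this
    exact this
  choose c hcinj hcI hcdet using hbas
  refine ⟨c, ?_, hcdet⟩
  rintro ⟨j, i⟩ ⟨j', i'⟩ h
  simp only at h
  have hjj : j = j' := by
    by_contra hne
    exact Finset.disjoint_left.mp (hd j j' hne) (hcI j i) (h ▸ hcI j' i')
  subst hjj
  rw [hcinj j h]

/-- a function orthogonal modulo `k` to the kernel lattice is a tension modulo `k` -/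
theorem tension_of_orth (v : E → ι → ℤ) (hTU : TU v) (k : ℕ) (f : E → ℤ)
    (hf : ∀ z ∈ kerLat v, (k : ℤ) ∣ ∑ e, f e * z e) :
    ∃ y : ι → ℤ, ∀ e, (k : ℤ) ∣ (∑ i, v e i * y i) - f e := by
  classical
  obtain ⟨B, -, hB, hBspan⟩ := exists_base v univ
  obtain ⟨w, hw⟩ := dualvec v hTU B hB
  refine ⟨fun i => ∑ b ∈ B, f b * w b i, fun e => ?_⟩
  have hval : ∀ g ∈ B, ∑ i, v g i * ∑ b ∈ B, f b * w b i = f g := by
    intro g hg
    have h1 : ∑ i, v g i * ∑ b ∈ B, f b * w b i = ∑ b ∈ B, f b * ∑ i, v g i * w b i := by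
      simp only [Finset.mul_sum]
      rw [Finset.sum_comm]
      exact Finset.sum_congr rfl fun b _ => Finset.sum_congr rfl fun i _ => by ring
    rw [h1, Finset.sum_eq_single g]
    · rw [hw g hg g hg, if_pos rfl, mul_one]
    · intro b hb hne
      rw [hw g hg b hb, if_neg (Ne.symm hne), mul_zero]
    · intro h; exact absurd hg h
  by_cases heB : e ∈ B
  · rw [hval e heB, sub_self]; exact dvd_zero _
  · have he : qv (v e) ∈ sp ℚ (fun e => qv (v e)) B := by
      rw [hBspan]; exact Submodule.subset_span ⟨e, by simp, rfl⟩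
    obtain ⟨c, hc⟩ := int_coeff v hTU B hB e he
    have h1 := hf _ (fund_mem v B e heB c hc)
    have h2 : ∑ g, f g * (if g = e then (1:ℤ) else if g ∈ B then - c g else 0)
        = f e - ∑ g ∈ B, c g * f g := by
      rw [← Finset.add_sum_erase univ _ (Finset.mem_univ e), if_pos rfl, mul_one, sub_eq_add_neg]
      congr 1
      rw [← Finset.sum_neg_distrib]
      have h3 : B ⊆ univ.erase e := by
        intro b hb
        rw [Finset.mem_erase]
        exact ⟨by rintro rfl; exact heB hb, Finset.mem_univ _⟩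
      rw [← Finset.sum_subset h3]
      · refine Finset.sum_congr rfl fun b hb => ?_
        have hbe : b ≠ e := by rintro rfl; exact heB hb
        rw [if_neg hbe, if_pos hb]; ring
      · intro g hg hgB
        rw [if_neg (Finset.ne_of_mem_erase hg), if_neg hgB, mul_zero]
    rw [h2] at h1
    have h4 : ∑ i, v e i * ∑ b ∈ B, f b * w b i = ∑ g ∈ B, c g * f g := by
      have h5 : ∀ i, v e i = ∑ g ∈ B, c g * v g i := by
        intro i
        have := congrFun hc i
        simpa only [Finset.sum_apply, Pi.smul_apply, smul_eq_mul] using this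
      simp only [h5, Finset.sum_mul]
      rw [Finset.sum_comm]
      refine Finset.sum_congr rfl fun g hg => ?_
      rw [← hval g hg, Finset.mul_sum]
      exact Finset.sum_congr rfl fun i _ => by ring
    rw [h4]
    have h6 := (dvd_neg).mpr h1
    have h7 : -(f e - ∑ g ∈ B, c g * f g) = ∑ g ∈ B, c g * f g - f e := by ring
    rwa [h7] at h6

/-- **Density and colourings of regular matroids.**  If `2 |Y| ≤ k r(Y)` for every set `Y` of
columns of a totally unimodular matrix, then there is a vector `y` such that every column `v e` has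
scalar product with `y` different from the forbidden value `T e` modulo `k`. -/
theorem reg_mod (v : E → ι → ℤ) (hTU : TU v) (k : ℕ) (hk : 3 ≤ k)
    (hd : ∀ Y : Finset E, 2 * Y.card ≤ k * Module.finrank ℚ (sp ℚ (fun e => qv (v e)) Y))
    (T : E → ℤ) :
    ∃ y : ι → ℤ, ∀ e, ¬ (k : ℤ) ∣ (∑ i, v e i * y i) - T e := by
  classical
  obtain ⟨n, zb⟩ := Submodule.basisOfPid (Pi.basisFun ℤ E) (kerLat v)
  obtain ⟨c, hc, hdet⟩ := packing_bases (cfg v zb) k (k - 2) (by omega) (by omega) (by
    intro S
    have h1 := cfg_rank v zb S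
    have h2 := hd (univ.filter (fun e => ¬ qv (cfg v zb e) ∈ S))
    have h3 := Nat.mul_le_mul_left k h1
    rw [mul_add, mul_add] at h3
    rw [Fintype.card_fin]
    obtain ⟨m, rfl⟩ : ∃ m, k = m + 2 := ⟨k - 2, by omega⟩
    have h5 : m + 2 - 2 = m := by omega
    rw [h5]
    have h4 : (m + 2) * (univ.filter (fun e => ¬ qv (cfg v zb e) ∈ S)).card
        = m * (univ.filter (fun e => ¬ qv (cfg v zb e) ∈ S)).card
          + 2 * (univ.filter (fun e => ¬ qv (cfg v zb e) ∈ S)).card := by ring
    omega)
  obtain ⟨f, a', hf, hs⟩ := mod_flow (cfg v zb) (cfg_unimod v zb hTU) k (by omega) c hc hdet T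
  obtain ⟨y, hy⟩ := tension_of_orth v hTU k f (by
    intro z hz
    have hrep : ∀ e, z e = ∑ i, zb.repr ⟨z, hz⟩ i * cfg v zb e i := by
      intro e
      have h1 := zb.sum_repr ⟨z, hz⟩
      have h2 := congrArg (fun u : kerLat v => (u : E → ℤ) e) h1
      simp only [Submodule.coe_sum, Submodule.coe_smul, Finset.sum_apply, Pi.smul_apply,
        smul_eq_mul] at h2
      exact h2.symm
    refine ⟨∑ i, zb.repr ⟨z, hz⟩ i * a' i, ?_⟩
    have h3 : ∀ e, f e * z e = ∑ i, zb.repr ⟨z, hz⟩ i * (f e * cfg v zb e i) := by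
      intro e
      rw [hrep e, Finset.mul_sum]
      exact Finset.sum_congr rfl fun i _ => by ring
    rw [Finset.sum_congr rfl (fun e _ => h3 e), Finset.sum_comm, Finset.mul_sum]
    refine Finset.sum_congr rfl fun i _ => ?_
    rw [← Finset.mul_sum]
    have h4 := congrFun hs i
    simp only [Finset.sum_apply, Pi.smul_apply, smul_eq_mul] at h4
    rw [h4]; ring)
  refine ⟨y, fun e hdiv => ?_⟩
  have h1 := hy e
  have h2 : (k : ℤ) ∣ f e - T e := by
    have := dvd_sub hdiv h1
    have h3 : (∑ i, v e i * y i) - T e - ((∑ i, v e i * y i) - f e) = f e - T e := by ring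
    rwa [h3] at this
  have h3 := hf e
  obtain ⟨m, hm⟩ := h2
  have hk0 : (0:ℤ) < k := by exact_mod_cast (by omega : 0 < k)
  have h4 : (0:ℤ) < k * m := by omega
  have h5 : (k:ℤ) * m < k := by omega
  have h6 : 0 < m := by
    by_contra hcon
    push Not at hcon
    nlinarith
  have h7 : m < 1 := by
    by_contra hcon
    push Not at hcon
    nlinarith
  omega

end Pool.Agent.H170.Reg
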