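import Pool.Agent.H239R2.Cover.Cograph
import Mathlib.LinearAlgebra.Matrix.Determinant.TotallyUnimodular

set_option autoImplicit false
set_option linter.unusedSectionVars false

/-! Totally unimodular matrices: integral dual vectors of independent sets of columns. -/

namespace Pool.Agent.H170.Reg

open Finset Matrix
open Pool.Agent.H239R2.Cover

variable {ι E : Type} [Fintype ι] [DecidableEq ι] [Fintype E] [DecidableEq E]

/-- a linear functional on `I → ℚ` in coordinates -/
theorem dual_coord {J : Type} [Fintype J] [DecidableEq J] (f : Module.Dual ℚ (J → ℚ))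
    (w : J → ℚ) : f w = ∑ e, w e * f (Pi.single e 1) := by
  have hw : w = ∑ i, w i • Pi.single i (1:ℚ) := by
    ext k
    simp [Finset.sum_apply, Pi.single_apply]
  conv_lhs => rw [hw]
  rw [map_sum]
  exact Finset.sum_congr rfl fun i _ => by rw [map_smul, smul_eq_mul]

/-- Independent columns of a totally unimodular matrix have integral dual vectors. -/
theorem dualvec (v : E → ι → ℤ)
    (hTU : (Matrix.of (fun i e => v e i) : Matrix ι E ℤ).IsTotallyUnimodular)
    (I : Finset E) (hI : LinearIndepOn ℚ (fun e => (fun i => (v e i : ℚ))) (I : Set E)) :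
    ∃ w : E → ι → ℤ, ∀ e ∈ I, ∀ f ∈ I, ∑ i, v e i * w f i = if e = f then 1 else 0 := by
  classical
  let y : ι → (I → ℤ) := fun i e => v e.1 i
  have hspan : Submodule.span ℚ ((fun i => (fun e => (y i e : ℚ))) ''
      ((univ : Finset ι) : Set ι)) = ⊤ := by
    by_contra hne
    obtain ⟨f, hf0, hf⟩ := Submodule.exists_le_ker_of_lt_top _ (lt_of_le_of_ne le_top hne)
    apply hf0
    have hc : ∀ e : I, f (Pi.single e 1) = 0 := by
      have h2 : LinearIndependent ℚ (fun e : I => (fun i => (v e.1 i : ℚ))) := hI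
      refine Fintype.linearIndependent_iff.mp h2 (fun e => f (Pi.single e 1)) ?_
      ext i
      have h3 : f (fun e => (y i e : ℚ)) = 0 := hf (Submodule.subset_span ⟨i, by simp, rfl⟩)
      rw [dual_coord] at h3
      simp only [Finset.sum_apply, Pi.smul_apply, smul_eq_mul, Pi.zero_apply]
      rw [← h3]
      exact Finset.sum_congr rfl fun e _ => by simp only [y]; ring
    apply LinearMap.ext
    intro w
    rw [dual_coord, LinearMap.zero_apply]
    exact Finset.sum_eq_zero fun i _ => by rw [hc i, mul_zero]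
  obtain ⟨c, hcinj, -, hdet⟩ := exists_basis_of_spanQ y univ hspan
  set M : Matrix I I ℤ := Matrix.of (fun e => y (c e)) with hM
  have hMe : ∀ e f, M e f = v f.1 (c e) := fun e f => rfl
  have hunit : IsUnit M.det := by
    have h1 := (Matrix.isTotallyUnimodular_iff_fintype _).mp hTU I c Subtype.val
    have h2 : (Matrix.of (fun i e => v e i) : Matrix ι E ℤ).submatrix c Subtype.val = M := by
      ext e f; rfl
    rw [h2] at h1
    obtain ⟨s, hs⟩ := h1
    rw [← hs] at hdet ⊢
    cases s
    · exact absurd rfl hdet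
    · simp
    · simp
  have hinv : M⁻¹ * M = 1 := Matrix.nonsing_inv_mul _ hunit
  refine ⟨fun f i => if h : f ∈ I then ∑ e : I, M⁻¹ ⟨f, h⟩ e * (if c e = i then 1 else 0) else 0,
    ?_⟩
  intro g hg f hf
  simp only [dif_pos hf]
  have h1 : ∑ i, v g i * ∑ e : I, M⁻¹ ⟨f, hf⟩ e * (if c e = i then 1 else 0)
      = ∑ e : I, M⁻¹ ⟨f, hf⟩ e * v g (c e) := by
    simp only [Finset.mul_sum]
    rw [Finset.sum_comm]
    refine Finset.sum_congr rfl fun e _ => ?_
    rw [Finset.sum_eq_single (c e)]
    · rw [if_pos rfl]; ring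
    · intro b _ hb
      rw [if_neg (Ne.symm hb)]; ring
    · intro h; exact absurd (Finset.mem_univ _) h
  rw [h1]
  have h2 := congrFun (congrFun hinv ⟨f, hf⟩) ⟨g, hg⟩
  rw [Matrix.mul_apply, Matrix.one_apply] at h2
  simp only [hMe] at h2
  rw [h2]
  by_cases h : g = f
  · subst h; simp
  · rw [if_neg h, if_neg]
    intro h'
    exact h (congrArg Subtype.val h').symm

/-- Real independence implies rational independence. -/
theorem indepQ_of_indepR (v : E → ι → ℤ) (I : Finset E)
    (hI : LinearIndepOn ℝ (fun e => rv (v e)) (I : Set E)) :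
    LinearIndepOn ℚ (fun e => (fun i => (v e i : ℚ))) (I : Set E) := by
  have h1 : LinearIndependent ℚ (fun e : (I : Set E) => rv (v e.1)) :=
    LinearIndependent.restrict_scalars' ℚ hI
  have h2 : (fun e : (I : Set E) => rv (v e.1))
      = ((Algebra.linearMap ℚ ℝ).compLeft ι) ∘
        (fun e : (I : Set E) => (fun i => (v e.1 i : ℚ))) := by
    funext e
    ext i
    simp [rv]
  rw [h2] at h1
  exact LinearIndependent.of_comp _ h1

theorem unimod_of_TU (v : E → ι → ℤ)
    (hTU : (Matrix.of (fun i e => v e i) : Matrix ι E ℤ).IsTotallyUnimodular) : Unimod v := by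
  classical
  intro I hI s ⟨a, ha⟩ f hf
  obtain ⟨w, hw⟩ := dualvec v hTU I (indepQ_of_indepR v I hI)
  refine ⟨∑ i, a i * w f i, ?_⟩
  push_cast
  have h1 : ∑ i, (a i : ℝ) * (w f i : ℝ) = ∑ e ∈ I, s e * ((∑ i, v e i * w f i : ℤ) : ℝ) := by
    have h2 : ∀ i, (a i : ℝ) = ∑ e ∈ I, s e * (v e i : ℝ) := by
      intro i
      have := congrFun ha i
      simp only [Finset.sum_apply, Pi.smul_apply, smul_eq_mul, rv] at this
      exact this.symm
    simp only [h2]
    push_cast
    simp only [Finset.sum_mul, Finset.mul_sum]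
    rw [Finset.sum_comm]
    exact Finset.sum_congr rfl fun e _ => Finset.sum_congr rfl fun i _ => by ring
  rw [h1, Finset.sum_eq_single f]
  · rw [hw f hf f hf, if_pos rfl]; simp
  · intro e he hne
    rw [hw e he f hf, if_neg hne]; simp
  · intro h; exact absurd hf h

end Pool.Agent.H170.Reg
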